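import Mathlib
import Pool.Agent.Lib.MP_9837da_co.Defs
import Pool.Agent.Lib.MP_9837da_co.Main

namespace Pool.Agent.Results.MP_9837da_co.GOneTwo

open Pool.Agent.Lib.MP_9837da_co

/-- `g(1, 2) = 3`: three colours, and no fewer, allow a colouring of `ℤ²` in which no square has a
fair splitting by at most one horizontal or vertical cut. -/
theorem result : g 1 2 = 3 := g_one_two

end Pool.Agent.Results.MP_9837da_co.GOneTwo
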