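import Mathlib
import Pool.Agent.Lib.MP_9837da_co.Defs
import Pool.Agent.Lib.MP_9837da_co.TwoMain

namespace Pool.Agent.Results.MP_9837da_co.GTwoOne

open Pool.Agent.Lib.MP_9837da_co

/-- `g(2, 1) = 5`: five colours, and no fewer, allow a colouring of `ℤ` in which no block of
consecutive integers has a fair splitting by at most two cuts. -/
theorem result : g 2 1 = 5 := Two.g_two_one

end Pool.Agent.Results.MP_9837da_co.GTwoOne
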